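import Mathlib

set_option autoImplicit false

namespace Pool.Agent.TH358.PE

open MvPolynomial

section abs
universe u v w
variable {K : Type u} {L : Type v} {G : Type w} [Field K] [Field L] [Algebra K L] [AddCommGroup G]

theorem algInd {ι : Type*} {χ : Multiplicative G →* L}
    (hχ : LinearIndependent K (fun g : G => χ (Multiplicative.ofAdd g)))
    {a : ι → G} (ha : LinearIndependent ℤ a) :
    AlgebraicIndependent K (fun i => χ (Multiplicative.ofAdd (a i))) := by
  classical
  have ha' : LinearIndependent ℕ a := ha.restrict_scalars (by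
    intro m n h
    simpa using h)
  have h1 : LinearIndependent K
      (fun ν : ι →₀ ℕ => χ (Multiplicative.ofAdd (Finsupp.linearCombination ℕ a ν))) :=
    hχ.comp (fun ν : ι →₀ ℕ => Finsupp.linearCombination ℕ a ν) ha'
  rw [algebraicIndependent_iff]
  intro p hp
  rw [linearIndependent_iff'] at h1
  have h2 := h1 p.support (fun ν => coeff ν p) (by
    rw [aeval_def, eval₂_eq] at hp
    rw [← hp]
    refine Finset.sum_congr rfl (fun ν _ => ?_)
    rw [Algebra.smul_def]
    congr 1
    rw [Finsupp.linearCombination_apply, Finsupp.sum, ofAdd_sum, map_prod]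
    refine Finset.prod_congr rfl (fun i _ => ?_)
    rw [ofAdd_nsmul, map_pow])
  ext ν
  by_cases hν : ν ∈ p.support
  · simpa using h2 ν hν
  · simpa using hν

/-- The degree argument in the polynomial ring. -/
theorem deg_dvd {σ ι : Type*} [Fintype ι] (emb : ι → σ) (hemb : Function.Injective emb)
    {P Q : MvPolynomial σ K} (hP : P ≠ 0) (hQ : Q ≠ 0) {m D : ℕ} {n : ι → ℤ}
    (h : P ^ m * (∏ i, X (emb i) ^ (- n i).toNat) ^ D
      = Q ^ m * (∏ i, X (emb i) ^ (n i).toNat) ^ D) (i : ι) : (m : ℤ) ∣ D * n i := by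
  classical
  have hX : ∀ k : ι → ℕ, (∏ i, X (emb i) ^ k i : MvPolynomial σ K) ≠ 0 := fun k =>
    Finset.prod_ne_zero_iff.mpr (fun j _ => pow_ne_zero _ (X_ne_zero _))
  have hd : ∀ k : ι → ℕ, degreeOf (emb i) (∏ j, X (emb j) ^ k j : MvPolynomial σ K) = k i := by
    intro k
    rw [degreeOf_prod_eq _ _ (fun j _ => pow_ne_zero _ (X_ne_zero _)), Finset.sum_eq_single i]
    · rw [degreeOf_X_self_pow]
    · intro j _ hj
      exact degreeOf_X_pow_of_ne _ (fun h => hj (hemb h).symm)
    · intro h; exact absurd (Finset.mem_univ i) h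
  have h1 := congrArg (degreeOf (emb i)) h
  rw [degreeOf_mul_eq (pow_ne_zero _ hP) (pow_ne_zero _ (hX _)),
    degreeOf_mul_eq (pow_ne_zero _ hQ) (pow_ne_zero _ (hX _)),
    degreeOf_pow_eq _ _ _ hP, degreeOf_pow_eq _ _ _ hQ, degreeOf_pow_eq _ _ _ (hX _),
    degreeOf_pow_eq _ _ _ (hX _), hd, hd] at h1
  have h2 : ((m * degreeOf (emb i) P + D * (- n i).toNat : ℕ) : ℤ)
    = ((m * degreeOf (emb i) Q + D * (n i).toNat : ℕ) : ℤ) := by rw [h1]
  push_cast at h2
  have h3 : n i = ((n i).toNat : ℤ) - ((- n i).toNat : ℤ) := by omega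
  refine ⟨degreeOf (emb i) P - degreeOf (emb i) Q, ?_⟩
  have h4 : (D : ℤ) * n i = D * ((n i).toNat : ℤ) - D * ((- n i).toNat : ℤ) := by
    rw [← mul_sub, ← h3]
  rw [h4]
  push_cast at h2 ⊢
  linarith

end abs

end Pool.Agent.TH358.PE
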