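import Mathlib
import Pool.Agent.TH358.PE.Abs

set_option autoImplicit false

namespace Pool.Agent.TH358.PE

open MvPolynomial Multiplicative

section abs
universe u v w
variable {K : Type u} {L : Type v} {G : Type w} [Field K] [Field L] [Algebra K L] [AddCommGroup G]

theorem chi_ne {χ : Multiplicative G →* L} (g : G) : χ (ofAdd g) ≠ 0 := by
  have h : χ (ofAdd g) * χ (ofAdd (-g)) = 1 := by
    rw [← map_mul, ← ofAdd_add, add_neg_cancel, ofAdd_zero, map_one]
  exact left_ne_zero_of_mul_eq_one h

theorem main_fin [Algebra.EssFiniteType K L] [IsAddTorsionFree G] {χ : Multiplicative G →* L}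
    (hχ : LinearIndependent K (fun g : G => χ (ofAdd g))) : Module.Finite ℤ G := by
  classical
  obtain ⟨s, hs, hmax⟩ := exists_maximal_linearIndepOn ℤ (id : G → G)
  have hy : AlgebraicIndependent K (fun i : s => χ (ofAdd (i : G))) := algInd hχ hs
  have : FinTrdeg K L := inferInstance
  have : Finite s := finite_of_algebraicIndependent hy
  have := Fintype.ofFinite s
  obtain ⟨t, hst, ht⟩ := exists_isTranscendenceBasis_superset (R := K)
    (s := Set.range fun i : s => χ (ofAdd (i : G))) hy.coe_range
  set E := IntermediateField.adjoin K t with hE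
  have : Algebra.IsAlgebraic E L := by
    have h := ht.isAlgebraic_field
    rwa [Subtype.range_coe] at h
  have : Algebra.EssFiniteType E L := .of_comp K _ _
  have : Module.Finite E L := Algebra.finite_of_essFiniteType_of_isAlgebraic
  set D := Module.finrank E L with hDdef
  have hD : 0 < D := Module.finrank_pos
  have hspan : Submodule.span ℤ (Set.range (Subtype.val : s → G)) = Submodule.span ℤ s := by
    rw [Subtype.range_coe]
  have key : ∀ g : G, D • g ∈ Submodule.span ℤ s := by
    intro g
    by_cases hg : g ∈ s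
    · exact Submodule.smul_of_tower_mem _ _ (Submodule.subset_span hg)
    obtain ⟨a, ha0, ha⟩ := hmax g hg
    rw [Set.image_id] at ha
    have hm : a.natAbs • g ∈ Submodule.span ℤ s := by
      rcases Int.natAbs_eq a with h | h
      · have : a • g = a.natAbs • g := by
          conv_lhs => rw [h]
          rw [natCast_zsmul]
        rw [← this]; exact ha
      · have : -(a • g) = a.natAbs • g := by
          conv_lhs => rw [h]
          rw [neg_smul, neg_neg, natCast_zsmul]
        rw [← this]; exact neg_mem ha
    set m := a.natAbs with hmdef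
    have hm0 : m ≠ 0 := Int.natAbs_ne_zero.mpr ha0
    rw [← hspan, Submodule.mem_span_range_iff_exists_fun] at hm
    obtain ⟨n, hn⟩ := hm
    -- the relation in `L`
    set y : s → L := fun i => χ (ofAdd (i : G)) with hydef
    have hyE : ∀ i, y i ∈ E := fun i => IntermediateField.subset_adjoin K t (hst ⟨i, rfl⟩)
    have hrel : χ (ofAdd g) ^ m * ∏ i, y i ^ (- n i).toNat = ∏ i, y i ^ (n i).toNat := by
      have h1 : ∀ k : s → ℕ, ∏ i, y i ^ k i = χ (ofAdd (∑ i, k i • (i : G))) := by
        intro k
        rw [ofAdd_sum, map_prod]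
        refine Finset.prod_congr rfl (fun i _ => ?_)
        rw [ofAdd_nsmul, map_pow]
      rw [h1, h1, ← map_pow, ← map_mul, ← ofAdd_nsmul, ← ofAdd_add]
      congr 2
      rw [← hn, ← Finset.sum_add_distrib]
      refine Finset.sum_congr rfl (fun i _ => ?_)
      have h3 : ((n i).toNat : ℤ) = n i + ((- n i).toNat : ℤ) := by omega
      rw [← natCast_zsmul (i : G) (n i).toNat, h3, add_smul, natCast_zsmul]
    -- norms
    set x : E := Algebra.norm E (χ (ofAdd g)) with hx
    have hx0 : x ≠ 0 := by
      rw [hx, Ne, Algebra.norm_eq_zero_iff]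
      exact chi_ne g
    have hnorm : x ^ m * (∏ i, (⟨y i, hyE i⟩ : E) ^ (- n i).toNat) ^ D
        = (∏ i, (⟨y i, hyE i⟩ : E) ^ (n i).toNat) ^ D := by
      have h1 : ∀ k : s → ℕ, Algebra.norm E (∏ i, y i ^ k i)
          = (∏ i, (⟨y i, hyE i⟩ : E) ^ k i) ^ D := by
        intro k
        have h2 : ∏ i, y i ^ k i = algebraMap E L (∏ i, (⟨y i, hyE i⟩ : E) ^ k i) := by
          rw [map_prod]
          refine Finset.prod_congr rfl (fun i _ => ?_)
          rw [map_pow]
          rfl
        rw [h2, Algebra.norm_algebraMap]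
      rw [hx, ← map_pow, ← h1, ← h1, ← map_mul, hrel]
    obtain ⟨P, Q, hPQ⟩ := (IntermediateField.mem_adjoin_iff K (S := t) (x : L)).mp x.2
    have hx0' : (x : L) ≠ 0 := by
      intro h; exact hx0 (Subtype.ext h)
    have hQ0 : aeval (Subtype.val : t → L) Q ≠ 0 := by
      intro h; rw [h, div_zero] at hPQ; exact hx0' hPQ
    have hP0 : aeval (Subtype.val : t → L) P ≠ 0 := by
      intro h; rw [h, zero_div] at hPQ; exact hx0' hPQ
    have hP : P ≠ 0 := by rintro rfl; exact hP0 (map_zero _)
    have hQ : Q ≠ 0 := by rintro rfl; exact hQ0 (map_zero _)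
    set emb : s → t := fun i => ⟨y i, hst ⟨i, rfl⟩⟩ with hemb
    have hembinj : Function.Injective emb := by
      intro i j hij
      have h1 : y i = y j := congrArg Subtype.val hij
      exact hy.injective h1
    have hpoly : P ^ m * (∏ i, X (emb i) ^ (- n i).toNat) ^ D
        = Q ^ m * (∏ i, X (emb i) ^ (n i).toNat) ^ D := by
      have hinj : Function.Injective (aeval (Subtype.val : t → L) : MvPolynomial t K → L) := ht.1
      apply hinj
      simp only [map_mul, map_pow, map_prod, aeval_X]
      have h1 : (x : L) ^ m * (∏ i, y i ^ (- n i).toNat) ^ D = (∏ i, y i ^ (n i).toNat) ^ D := by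
        have h2 := congrArg (algebraMap E L) hnorm
        simp only [map_mul, map_pow, map_prod] at h2
        exact h2
      rw [hPQ, div_pow, div_mul_eq_mul_div, div_eq_iff (pow_ne_zero _ hQ0)] at h1
      rw [h1, mul_comm]
    have hdvd := fun i => deg_dvd emb hembinj hP hQ hpoly i
    choose c hc using hdvd
    -- now `D g = ∑ c i • i`
    have hfin : (m : ℕ) • (D • g) = m • ∑ i, c i • (i : G) := by
      rw [smul_comm, ← hn, Finset.smul_sum, Finset.smul_sum]
      refine Finset.sum_congr rfl (fun i _ => ?_)
      have h1 := hc i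
      calc D • n i • (i : G) = ((D : ℤ) * n i) • (i : G) := by rw [mul_smul, natCast_zsmul]
        _ = ((m : ℤ) * c i) • (i : G) := by rw [h1]
        _ = m • c i • (i : G) := by rw [mul_smul, natCast_zsmul]
    have hfin' : D • g = ∑ i, c i • (i : G) := nsmul_right_injective hm0 hfin
    rw [hfin', ← hspan]
    exact Submodule.mem_span_range_iff_exists_fun ℤ |>.mpr ⟨c, rfl⟩
  -- conclusion
  have : Module.Finite ℤ (Submodule.span ℤ s) :=
    Module.Finite.iff_fg.mpr (Submodule.fg_span (Set.toFinite s))
  have : IsNoetherian ℤ (Submodule.span ℤ s) := isNoetherian_of_isNoetherianRing_of_finite ℤ _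
  let f : G →ₗ[ℤ] Submodule.span ℤ s :=
    { toFun := fun g => ⟨D • g, key g⟩
      map_add' := fun a b => Subtype.ext (by simp [smul_add])
      map_smul' := fun a b => Subtype.ext (by
        show D • (a • b) = a • (D • b)
        exact smul_comm _ _ _) }
  have hf : Function.Injective f := by
    intro a b hab
    have h1 : D • a = D • b := congrArg Subtype.val hab
    exact nsmul_right_injective hD.ne' h1
  exact Module.Finite.of_injective f hf

theorem main_basis [Algebra.EssFiniteType K L] [IsAddTorsionFree G] {χ : Multiplicative G →* L}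
    (hχ : LinearIndependent K (fun g : G => χ (ofAdd g))) :
    ∃ (r : ℕ) (b : Fin r → G), LinearIndependent ℤ b ∧ (∀ g : G, ∃ n : Fin r → ℤ,
      g = ∑ i, n i • b i) ∧ AlgebraicIndependent K (fun i => χ (ofAdd (b i))) := by
  have := main_fin hχ
  have : Module.Free ℤ G := inferInstance
  let b := Module.finBasis ℤ G
  refine ⟨Module.finrank ℤ G, b, b.linearIndependent, fun g => ⟨fun i => b.repr g i, ?_⟩,
    algInd hχ b.linearIndependent⟩
  exact (b.sum_repr g).symm

end abs

end Pool.Agent.TH358.PE
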