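import Mathlib
import Pool.Agent.TH358.PE.Fin
import Pool.Agent.H340R2.LW

set_option autoImplicit false

namespace Pool.Agent.TH358.PE

open Multiplicative IntermediateField

/-- The field of algebraic numbers. -/
noncomputable abbrev QB : IntermediateField ℚ ℂ := algebraicClosure ℚ ℂ

theorem mem_QB {z : ℂ} : z ∈ QB ↔ IsAlgebraic ℚ z := by
  rw [mem_algebraicClosure_iff]

theorem range_QB : Set.range (algebraMap QB ℂ) = {z : ℂ | IsAlgebraic ℚ z} := by
  ext z
  constructor
  · rintro ⟨x, rfl⟩
    exact mem_QB.mp x.2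
  · intro h
    exact ⟨⟨z, mem_QB.mpr h⟩, rfl⟩

theorem adjoin_toSubfield (S : Set ℂ) :
    (adjoin QB S).toSubfield = Subfield.closure ({z : ℂ | IsAlgebraic ℚ z} ∪ S) := by
  rw [← range_QB]
  rfl

/-- The group of algebraic `α` with `exp α ∈ F`. -/
def grp (F : IntermediateField QB ℂ) : AddSubgroup ℂ where
  carrier := {α | IsAlgebraic ℚ α ∧ Complex.exp α ∈ F}
  zero_mem' := ⟨isAlgebraic_zero, by rw [Complex.exp_zero]; exact one_mem F⟩
  add_mem' := by
    rintro a b ⟨ha, ha'⟩ ⟨hb, hb'⟩
    exact ⟨ha.add hb, by rw [Complex.exp_add]; exact mul_mem ha' hb'⟩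
  neg_mem' := by
    rintro a ⟨ha, ha'⟩
    exact ⟨ha.neg, by rw [Complex.exp_neg]; exact inv_mem ha'⟩

noncomputable def chi (F : IntermediateField QB ℂ) : Multiplicative (grp F) →* F where
  toFun g := ⟨Complex.exp (g.toAdd : ℂ), g.toAdd.2.2⟩
  map_one' := Subtype.ext (by simp)
  map_mul' a b := Subtype.ext (by simp [Complex.exp_add])

theorem chi_linInd (F : IntermediateField QB ℂ) :
    LinearIndependent QB (fun g : grp F => chi F (ofAdd g)) := by
  have h : LinearIndependent QB (fun g : grp F => Complex.exp (g : ℂ)) := by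
    rw [linearIndependent_iff']
    intro s c hc g hg
    have h1 := Pool.Agent.H340R2.LW.lindemann_weierstrass s (fun g : grp F => (g : ℂ))
      (fun g => ((c g : QB) : ℂ)) (fun g _ => g.2.1) (fun g _ => mem_QB.mp (c g).2)
      (fun a _ b _ h => Subtype.ext h) (by
        rw [← hc]
        refine Finset.sum_congr rfl (fun g _ => ?_)
        rfl) g hg
    exact Subtype.ext h1
  exact LinearIndependent.of_comp (F.val.toLinearMap) h

theorem trdeg_le (S : Finset ℂ) :
    Algebra.trdeg QB (adjoin QB (S : Set ℂ)) ≤ (S.card : Cardinal) := by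
  classical
  set F := adjoin QB (S : Set ℂ) with hF
  set s : Set F := Subtype.val ⁻¹' (S : Set ℂ) with hs
  have htop : adjoin QB s = ⊤ := by
    apply IntermediateField.map_injective F.val
    rw [adjoin_map]
    have h1 : (F.val : F → ℂ) '' s = (S : Set ℂ) := by
      rw [hs]
      have : Set.range (F.val : F → ℂ) = (F : Set ℂ) := by
        ext z
        simp
      rw [show (Subtype.val ⁻¹' (S : Set ℂ) : Set F) = (F.val : F → ℂ) ⁻¹' (S : Set ℂ) from rfl,
        Set.image_preimage_eq_inter_range, this, Set.inter_eq_left]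
      exact subset_adjoin QB _
    rw [h1, ← hF, ← AlgHom.fieldRange_eq_map]
    ext z
    simp
  have alg : Algebra.IsAlgebraic (Algebra.adjoin QB s) F := by
    rw [← isAlgebraic_adjoin_iff_top, htop, Algebra.isAlgebraic_iff_isIntegral]
    exact Algebra.isIntegral_of_surjective topEquiv.surjective
  have h2 : Algebra.trdeg QB F ≤ Cardinal.mk s := Algebra.IsAlgebraic.trdeg_le_cardinalMk QB s
  refine h2.trans ?_
  have h3 : Cardinal.mk s ≤ Cardinal.mk (S : Set ℂ) := by
    refine Cardinal.mk_le_of_injective (f := fun x : s => (⟨(x : F), x.2⟩ : (S : Set ℂ))) ?_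
    intro a b hab
    have h4 := congrArg Subtype.val hab
    exact Subtype.ext (Subtype.ext h4)
  refine h3.trans ?_
  simp

theorem main (S : Finset ℂ) :
    ∃ (r : ℕ) (a : Fin r → ℂ), r ≤ S.card ∧ (∀ i, IsAlgebraic ℚ (a i)) ∧
      AlgebraicIndependent QB (fun i => Complex.exp (a i)) ∧
      ∀ α : ℂ, IsAlgebraic ℚ α → (Complex.exp α ∈ adjoin QB (S : Set ℂ) ↔
        ∃! n : Fin r → ℤ, α = ∑ i, n i * a i) := by
  set F := adjoin QB (S : Set ℂ) with hF
  have : Algebra.EssFiniteType QB F := IntermediateField.essFiniteType_iff.mpr (fg_adjoin_finset S)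
  obtain ⟨r, b, hb, hspan, halg⟩ := main_basis (chi_linInd F)
  have hcard : (r : Cardinal) ≤ S.card := by
    have h1 := halg.lift_cardinalMk_le_trdeg
    have h2 := trdeg_le S
    rw [← hF] at h2
    simp only [Cardinal.mk_fin, Cardinal.lift_natCast] at h1
    exact h1.trans (by simpa using h2)
  have halg' : AlgebraicIndependent QB (fun i => Complex.exp (b i : ℂ)) :=
    halg.map' (f := F.val) F.val.injective
  refine ⟨r, fun i => (b i : ℂ), by exact_mod_cast hcard, fun i => (b i).2.1, halg', ?_⟩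
  intro α hα
  have hsum : ∀ n : Fin r → ℤ, ((∑ i, n i • b i : grp F) : ℂ) = ∑ i, (n i : ℂ) * (b i : ℂ) := by
    intro n
    have h1 := map_sum (grp F).subtype (fun i => n i • b i) Finset.univ
    refine h1.trans (Finset.sum_congr rfl (fun i _ => ?_))
    rw [map_zsmul, zsmul_eq_mul]
    rfl
  constructor
  · intro h
    obtain ⟨n, hn⟩ := hspan ⟨α, hα, h⟩
    refine ⟨n, ?_, ?_⟩
    · show α = _
      rw [← hsum, ← hn]
    · intro m hm
      have hm' : α = ∑ i, (m i : ℂ) * (b i : ℂ) := hm
      have h3 : (∑ i, m i • b i : grp F) = ∑ i, n i • b i := by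
        apply Subtype.ext
        rw [hsum, ← hm', ← hn]
      have h4 : ∑ i, (m i - n i) • b i = 0 := by
        simp only [sub_smul, Finset.sum_sub_distrib, h3, sub_self]
      rw [Fintype.linearIndependent_iff] at hb
      funext i
      have := hb _ h4 i
      omega
  · rintro ⟨n, hn, -⟩
    have hn' : α = ∑ i, (n i : ℂ) * (b i : ℂ) := hn
    rw [hn', ← hsum]
    exact (∑ i, n i • b i : grp F).2.2

end Pool.Agent.TH358.PE
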