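import Mathlib
import Pool.Agent.TH358.PE.Abs

set_option autoImplicit false

namespace Pool.Agent.TH358.PE

open MvPolynomial

section key
universe u v w
variable {K : Type u} {E : Type v} {L : Type w} [Field K] [Field E] [Field L] [Algebra K E]
  [Algebra E L]

/-- Let `E` be the rational function field over `K` in the variables `z`, and `L / E` finite.
If the `m`-th power of `b ∈ L` is the Laurent monomial `z ^ n`, then `m` divides
`[L : E] n`. (Take norms.) -/
theorem key [Module.Finite E L] {τ ι : Type*} [Fintype ι] (z : τ → E)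
    (hz : AlgebraicIndependent K z)
    (hgen : ∀ x : E, ∃ P Q : MvPolynomial τ K, x = aeval z P / aeval z Q)
    (emb : ι → τ) (hemb : Function.Injective emb) {b : L} (hb : b ≠ 0) {m : ℕ} {n : ι → ℤ}
    (hrel : b ^ m * ∏ i, (algebraMap E L (z (emb i))) ^ (- n i).toNat
      = ∏ i, (algebraMap E L (z (emb i))) ^ (n i).toNat) (i : ι) :
    (m : ℤ) ∣ Module.finrank E L * n i := by
  classical
  set D := Module.finrank E L with hDdef
  set x : E := Algebra.norm E b with hx
  have hx0 : x ≠ 0 := by
    rw [hx, Ne, Algebra.norm_eq_zero_iff]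
    exact hb
  have hnorm : x ^ m * (∏ i, (z (emb i)) ^ (- n i).toNat) ^ D
      = (∏ i, (z (emb i)) ^ (n i).toNat) ^ D := by
    have h1 : ∀ k : ι → ℕ, Algebra.norm E (∏ i, (algebraMap E L (z (emb i))) ^ k i)
        = (∏ i, (z (emb i)) ^ k i) ^ D := by
      intro k
      have h2 : ∏ i, (algebraMap E L (z (emb i))) ^ k i
          = algebraMap E L (∏ i, (z (emb i)) ^ k i) := by
        rw [map_prod]
        refine Finset.prod_congr rfl (fun i _ => ?_)
        rw [map_pow]
      rw [h2, Algebra.norm_algebraMap]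
    rw [hx, ← map_pow, ← h1, ← h1, ← map_mul, hrel]
  obtain ⟨P, Q, hPQ⟩ := hgen x
  have hQ0 : aeval z Q ≠ 0 := by
    intro h; rw [h, div_zero] at hPQ; exact hx0 hPQ
  have hP0 : aeval z P ≠ 0 := by
    intro h; rw [h, zero_div] at hPQ; exact hx0 hPQ
  have hP : P ≠ 0 := by rintro rfl; exact hP0 (map_zero _)
  have hQ : Q ≠ 0 := by rintro rfl; exact hQ0 (map_zero _)
  have hpoly : P ^ m * (∏ i, X (emb i) ^ (- n i).toNat) ^ D
      = Q ^ m * (∏ i, X (emb i) ^ (n i).toNat) ^ D := by
    have hinj : Function.Injective (aeval z : MvPolynomial τ K → E) := hz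
    apply hinj
    simp only [map_mul, map_pow, map_prod, aeval_X]
    rw [hPQ, div_pow, div_mul_eq_mul_div, div_eq_iff (pow_ne_zero _ hQ0)] at hnorm
    rw [hnorm, mul_comm]
  exact deg_dvd emb hemb hP hQ hpoly i

end key

end Pool.Agent.TH358.PE
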