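import Mathlib

set_option autoImplicit false

namespace Pool.Agent.TH358.PE

open Multiplicative IntermediateField

open scoped IntermediateField.algebraAdjoinAdjoin

section abs
universe u v w
variable {K : Type u} {C : Type v} {G : Type w} [Field K] [Field C] [Algebra K C] [AddCommGroup G]

/-- Monomials in algebraically independent elements are linearly independent. -/
theorem monomials_linInd {R A τ : Type*} [Field R] [Field A] [Algebra R A] {x : τ → A}
    (hx : AlgebraicIndependent R x) :
    LinearIndependent R (fun ν : τ →₀ ℕ => ν.prod (fun i k => x i ^ k)) := by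
  have h1 := (MvPolynomial.basisMonomials τ R).linearIndependent
  have h2 := h1.map' (MvPolynomial.aeval x : MvPolynomial τ R →ₐ[R] A).toLinearMap
    (LinearMap.ker_eq_bot.mpr hx)
  have h3 : (fun ν : τ →₀ ℕ => ν.prod (fun i k => x i ^ k)) =
      ((MvPolynomial.aeval x : MvPolynomial τ R →ₐ[R] A).toLinearMap ∘
        MvPolynomial.basisMonomials τ R) := by
    funext ν
    simp [MvPolynomial.aeval_monomial]
  rw [h3]
  exact h2

variable (K) in
/-- The field generated over `K` by `χ (M)` and the set `t`. -/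
def EE (χ : Multiplicative G →* C) (t : Set C) (M : AddSubgroup G) : IntermediateField K C :=
  adjoin K ((fun g : G => χ (ofAdd g)) '' (M : Set G) ∪ t)

theorem EE_mono {χ : Multiplicative G →* C} {t : Set C} {M N : AddSubgroup G} (h : M ≤ N) :
    EE K χ t M ≤ EE K χ t N :=
  adjoin.mono _ _ _ (Set.union_subset_union_left _ (Set.image_mono h))

/-- The elements `χ (h) t ^ ν`. -/
noncomputable def uu (χ : Multiplicative G →* C) (t : Set C) (p : G × (t →₀ ℕ)) : C :=
  χ (ofAdd p.1) * p.2.prod (fun i k => (i : C) ^ k)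

theorem uu_mul (χ : Multiplicative G →* C) (t : Set C) (p q : G × (t →₀ ℕ)) :
    uu χ t p * uu χ t q = uu χ t (p + q) := by
  classical
  unfold uu
  rw [Prod.fst_add, Prod.snd_add, ofAdd_add, map_mul,
    Finsupp.prod_add_index' (fun _ => pow_zero _) (fun _ _ _ => pow_add _ _ _)]
  ring

/-- Every element of the ring generated by `χ (M)` and `t` is a combination of the
`χ (h) t ^ ν`. -/
theorem adjoin_le_span (χ : Multiplicative G →* C) (t : Set C) (M : AddSubgroup G) :
    ∀ x ∈ Algebra.adjoin K ((fun g : G => χ (ofAdd g)) '' (M : Set G) ∪ t),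
      x ∈ Submodule.span K (Set.range (fun p : M × (t →₀ ℕ) => uu χ t ((p.1 : G), p.2))) := by
  classical
  intro x hx
  have h1 : x ∈ Subalgebra.toSubmodule
      (Algebra.adjoin K ((fun g : G => χ (ofAdd g)) '' (M : Set G) ∪ t)) := hx
  rw [Algebra.adjoin_eq_span] at h1
  refine Submodule.span_mono ?_ h1
  intro y hy
  refine Submonoid.closure_induction (motive := fun y _ => y ∈
    Set.range (fun p : M × (t →₀ ℕ) => uu χ t ((p.1 : G), p.2))) ?_ ?_ ?_ hy
  · rintro z (⟨g, hg, rfl⟩ | hz)
    · exact ⟨(⟨g, hg⟩, 0), by simp [uu]⟩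
    · exact ⟨(0, Finsupp.single ⟨z, hz⟩ 1), by simp [uu]⟩
  · exact ⟨(0, 0), by simp [uu]⟩
  · rintro a b - - ⟨p, rfl⟩ ⟨q, rfl⟩
    exact ⟨p + q, by simp only [uu_mul]; rfl⟩

/-- Independence of incongruent characters over `EE`. -/
theorem EE_linInd {χ : Multiplicative G →* C} {t : Set C}
    (hu : LinearIndependent K (uu χ t)) (M : AddSubgroup G) {ι : Type*} (g : ι → G)
    (hg : ∀ i j, i ≠ j → g i - g j ∉ M) :
    LinearIndependent (EE K χ t M) (fun i => χ (ofAdd (g i))) := by
  classical
  unfold EE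
  rw [← LinearIndependent.iff_fractionRing
    (Algebra.adjoin K ((fun g : G => χ (ofAdd g)) '' (M : Set G) ∪ t)), linearIndependent_iff']
  intro s a ha i0 hi0
  have hmem : ∀ i, ∃ c : (M × (t →₀ ℕ)) →₀ K,
      (c.sum fun p k => k • uu χ t ((p.1 : G), p.2)) = (a i : C) := fun i =>
    Finsupp.mem_span_range_iff_exists_finsupp.mp (adjoin_le_span χ t M _ (a i).2)
  choose c hc using hmem
  set P : Finset (M × (t →₀ ℕ)) := s.biUnion (fun i => (c i).support) with hP
  have hc' : ∀ i ∈ s, (a i : C) = ∑ p ∈ P, c i p • uu χ t ((p.1 : G), p.2) := by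
    intro i hi
    rw [← hc i]
    exact Finsupp.sum_of_support_subset _
      (Finset.subset_biUnion_of_mem (fun i => (c i).support) hi) _ (fun p _ => zero_smul _ _)
  have hw : LinearIndependent K
      (fun q : ι × (M × (t →₀ ℕ)) => uu χ t ((q.2.1 : G) + g q.1, q.2.2)) := by
    refine hu.comp (fun q : ι × (M × (t →₀ ℕ)) => ((q.2.1 : G) + g q.1, q.2.2)) ?_
    rintro ⟨i, ⟨h, ν⟩⟩ ⟨j, ⟨h', ν'⟩⟩ hq
    have h1 : (h : G) + g i = h' + g j := congrArg Prod.fst hq
    have h2 : ν = ν' := congrArg Prod.snd hq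
    have h3 : i = j := by
      by_contra hij
      apply hg i j hij
      have : g i - g j = h' - h := by
        rw [sub_eq_sub_iff_add_eq_add, add_comm (g i), h1, add_comm]
      rw [this]
      exact M.sub_mem h'.2 h.2
    subst h3
    have h4 : h = h' := Subtype.ext (add_right_cancel h1)
    rw [h4, h2]
  rw [linearIndependent_iff'] at hw
  have h0 := hw (s ×ˢ P) (fun q => c q.1 q.2) (by
    rw [Finset.sum_product, ← ha]
    refine Finset.sum_congr rfl (fun i hi => ?_)
    rw [Algebra.smul_def]
    show _ = (a i : C) * _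
    rw [hc' i hi, Finset.sum_mul]
    refine Finset.sum_congr rfl (fun p _ => ?_)
    rw [smul_mul_assoc]
    congr 1
    have h5 : χ (ofAdd (g i)) = uu χ t (g i, 0) := by simp [uu]
    rw [h5, uu_mul]
    simp)
  apply Subtype.ext
  rw [hc' i0 hi0]
  refine Finset.sum_eq_zero (fun p hp => ?_)
  rw [h0 (i0, p) (Finset.mk_mem_product hi0 hp), zero_smul]

end abs

end Pool.Agent.TH358.PE
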