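import Mathlib
import Pool.Agent.TH358.PE.LW1

set_option autoImplicit false

namespace Pool.Agent.TH358.PE

open Multiplicative IntermediateField

open scoped IntermediateField.algebraAdjoinAdjoin

section abs
universe u v w
variable {K : Type u} {C : Type v} {G : Type w} [Field K] [Field C] [Algebra K C] [AddCommGroup G]

theorem EE_exists (χ : Multiplicative G →* C) (t : Set C) {a : C}
    (ha : a ∈ adjoin K (Set.range (fun g : G => χ (ofAdd g)) ∪ t)) :
    ∃ T : Finset G, a ∈ EE K χ t (AddSubgroup.closure (T : Set G)) := by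
  classical
  have hmono : ∀ {T T' : Finset G}, T ⊆ T' → EE K χ t (AddSubgroup.closure (T : Set G)) ≤
      EE K χ t (AddSubgroup.closure (T' : Set G)) := fun h =>
    EE_mono (AddSubgroup.closure_mono (by exact_mod_cast h))
  refine adjoin_induction K (p := fun a _ => ∃ T : Finset G,
    a ∈ EE K χ t (AddSubgroup.closure (T : Set G))) ?_ ?_ ?_ ?_ ?_ ha
  · rintro x (⟨g, rfl⟩ | hx)
    · refine ⟨{g}, subset_adjoin K _ (Or.inl ⟨g, AddSubgroup.subset_closure (by simp), rfl⟩)⟩
    · exact ⟨∅, subset_adjoin K _ (Or.inr hx)⟩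
  · intro x
    exact ⟨∅, IntermediateField.algebraMap_mem _ x⟩
  · rintro x y - - ⟨T, hT⟩ ⟨T', hT'⟩
    exact ⟨T ∪ T', add_mem (hmono Finset.subset_union_left hT)
      (hmono Finset.subset_union_right hT')⟩
  · rintro x - ⟨T, hT⟩
    exact ⟨T, inv_mem hT⟩
  · rintro x y - - ⟨T, hT⟩ ⟨T', hT'⟩
    exact ⟨T ∪ T', mul_mem (hmono Finset.subset_union_left hT)
      (hmono Finset.subset_union_right hT')⟩

theorem lw_over (S : Finset C) {χ : Multiplicative G →* C}
    (hχ : LinearIndependent K (fun g : G => χ (ofAdd g))) :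
    ∃ T : Finset G, ∀ {ι : Type} (g : ι → G),
      (∀ i j, i ≠ j → g i - g j ∉ AddSubgroup.closure (T : Set G)) →
      LinearIndependent (adjoin K ((S : Set C) ∪
        (fun g : G => χ (ofAdd g)) '' (AddSubgroup.closure (T : Set G) : Set G)))
        (fun i => χ (ofAdd (g i))) := by
  classical
  set Ω : IntermediateField K C := adjoin K (Set.range fun g : G => χ (ofAdd g)) with hΩ
  obtain ⟨t, -, ⟨ht1, ht2⟩, htmax⟩ := exists_maximal_algebraicIndependent (R := Ω) ∅ (S : Set C)
    (Set.empty_subset _) ((algebraicIndependent_empty_iff Ω C).mpr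
      (FaithfulSMul.algebraMap_injective Ω C))
  set Ω' : IntermediateField Ω C := adjoin Ω t with hΩ'
  have hres : Ω'.restrictScalars K = adjoin K (Set.range (fun g : G => χ (ofAdd g)) ∪ t) := by
    rw [hΩ', hΩ]
    exact adjoin_adjoin_left K _ t
  -- `S` is algebraic over `Ω'`
  have hSalg : ∀ x ∈ (S : Set C), IsIntegral Ω' x := by
    intro x hx
    by_cases hxt : x ∈ t
    · exact isIntegral_algebraMap (x := (⟨x, subset_adjoin Ω t hxt⟩ : Ω'))
    · by_contra hcon
      apply hxt
      have htr : Transcendental (Algebra.adjoin Ω (id '' t)) (id x) := by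
        intro halg
        apply hcon
        rw [Set.image_id] at halg
        have h1 : IsAlgebraic Ω' x := IsAlgebraic.extendScalars (R := Algebra.adjoin Ω t)
          (FaithfulSMul.algebraMap_injective (Algebra.adjoin Ω t) (adjoin Ω t)) halg
        exact h1.isIntegral
      have h2 := htmax ⟨ht1.insert htr, Set.insert_subset hx ht2⟩ (Set.subset_insert x t)
      exact h2 (Set.mem_insert x t)
  set L : IntermediateField Ω' C := adjoin Ω' (S : Set C) with hL
  have : FiniteDimensional Ω' L := finiteDimensional_adjoin hSalg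
  set D := Module.finrank Ω' L with hD
  let θ : Module.Basis (Fin D) Ω' L := Module.finBasis Ω' L
  have hD0 : 0 < D := Module.finrank_pos
  set θC : Fin D → C := fun m => (θ m : C) with hθC
  have hθ : LinearIndependent Ω' θC := by
    have h1 := θ.linearIndependent.map' (L.val.toLinearMap)
      (LinearMap.ker_eq_bot.mpr L.val.injective)
    exact h1
  -- structure constants
  have hcoef : ∀ (x : S) (m l : Fin D), ∃ T : Finset G,
      ((θ.repr (⟨x, subset_adjoin Ω' _ x.2⟩ * θ m) l : Ω') : C) ∈
        EE K χ t (AddSubgroup.closure (T : Set G)) := by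
    intro x m l
    apply EE_exists
    rw [← hres]
    exact (θ.repr (⟨x, subset_adjoin Ω' _ x.2⟩ * θ m) l : Ω').2
  choose TT hTT using hcoef
  set T : Finset G := Finset.univ.biUnion (fun p : S × Fin D × Fin D => TT p.1 p.2.1 p.2.2) with hT
  set E := EE K χ t (AddSubgroup.closure (T : Set G)) with hE
  have hcoefE : ∀ (x : S) (m l : Fin D),
      ((θ.repr (⟨x, subset_adjoin Ω' _ x.2⟩ * θ m) l : Ω') : C) ∈ E := by
    intro x m l
    refine EE_mono (AddSubgroup.closure_mono ?_) (hTT x m l)
    have h1 : TT x m l ⊆ T := Finset.subset_biUnion_of_mem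
      (fun p : S × Fin D × Fin D => TT p.1 p.2.1 p.2.2) (Finset.mem_univ (x, m, l))
    exact_mod_cast h1
  have hEle : ∀ z ∈ E, z ∈ Ω' := by
    intro z hz
    have h1 : E ≤ Ω'.restrictScalars K := by
      rw [hres, hE]
      refine adjoin.mono _ _ _ (Set.union_subset_union_left _ ?_)
      rintro _ ⟨g, -, rfl⟩
      exact ⟨g, rfl⟩
    exact h1 hz
  set V : Submodule E C := Submodule.span E (Set.range θC) with hV
  have hVfin : FiniteDimensional E V := FiniteDimensional.span_of_finite E (Set.finite_range θC)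
  have hSV : ∀ x ∈ (S : Set C), ∀ v ∈ V, x * v ∈ V := by
    intro x hx v hv
    induction hv using Submodule.span_induction with
    | mem v hv =>
      obtain ⟨m, rfl⟩ := hv
      have h1 := θ.sum_repr ((⟨x, subset_adjoin Ω' _ hx⟩ : L) * θ m)
      have h2 : ∑ l, L.val (θ.repr ((⟨x, subset_adjoin Ω' _ hx⟩ : L) * θ m) l • θ l)
          = x * θC m := by
        rw [← map_sum, h1]
        rfl
      have h3 : x * θC m = ∑ l, ((θ.repr (⟨x, subset_adjoin Ω' _ hx⟩ * θ m) l : Ω') : C) * θC l := by
        refine Eq.trans h2.symm (Finset.sum_congr rfl (fun l _ => ?_))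
        rw [map_smul, Algebra.smul_def]
        rfl
      rw [h3]
      refine Submodule.sum_mem _ (fun l _ => ?_)
      exact Submodule.smul_mem V (⟨_, hcoefE ⟨x, hx⟩ m l⟩ : E)
        (Submodule.subset_span ⟨l, rfl⟩)
    | zero => rw [mul_zero]; exact Submodule.zero_mem _
    | add a b _ _ ha hb => rw [mul_add]; exact Submodule.add_mem _ ha hb
    | smul e a _ ha => rw [mul_smul_comm]; exact Submodule.smul_mem _ _ ha
  have hFV : ∀ c ∈ adjoin K ((S : Set C) ∪
      (fun g : G => χ (ofAdd g)) '' (AddSubgroup.closure (T : Set G) : Set G)),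
      ∀ v ∈ V, c * v ∈ V := by
    intro c hc
    refine adjoin_induction K (p := fun c _ => ∀ v ∈ V, c * v ∈ V) ?_ ?_ ?_ ?_ ?_ hc
    · rintro x (hx | ⟨h, hh, rfl⟩)
      · exact fun v hv => hSV x hx v hv
      · intro v hv
        exact Submodule.smul_mem V
          (⟨_, subset_adjoin K _ (Or.inl ⟨h, hh, rfl⟩)⟩ : E) hv
    · intro k v hv
      exact Submodule.smul_mem V (⟨_, IntermediateField.algebraMap_mem E k⟩ : E) hv
    · intro x y _ _ hx hy v hv
      rw [add_mul]
      exact Submodule.add_mem _ (hx v hv) (hy v hv)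
    · intro x _ hx v hv
      by_cases hx0 : x = 0
      · rw [hx0, inv_zero, zero_mul]; exact Submodule.zero_mem _
      let f : V →ₗ[E] V :=
        { toFun := fun w => ⟨x * w, hx w w.2⟩
          map_add' := fun a b => Subtype.ext (by simp [mul_add])
          map_smul' := fun a b => Subtype.ext (by simp) }
      have hf : Function.Injective f := by
        intro a b hab
        have h1 : x * (a : C) = x * b := congrArg Subtype.val hab
        exact Subtype.ext (mul_left_cancel₀ hx0 h1)
      obtain ⟨w, hw⟩ := (LinearMap.injective_iff_surjective.mp hf) ⟨v, hv⟩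
      have h1 : x * (w : C) = v := congrArg Subtype.val hw
      rw [← h1, ← mul_assoc, inv_mul_cancel₀ hx0, one_mul]
      exact w.2
    · intro x y _ _ hx hy v hv
      rw [mul_assoc]
      exact hx _ (hy v hv)
  -- independence of the `uu`
  have hu : LinearIndependent K (uu χ t) := by
    have hb : LinearIndependent K
        (fun g : G => (⟨χ (ofAdd g), subset_adjoin K _ ⟨g, rfl⟩⟩ : Ω)) :=
      LinearIndependent.of_comp (Ω.val.toLinearMap) hχ
    have hc := monomials_linInd ht1
    have h1 := linearIndependent_smul hb hc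
    exact h1
  refine ⟨T, fun {ι} g hg => ?_⟩
  have hEind := EE_linInd hu (AddSubgroup.closure (T : Set G)) g hg
  rw [linearIndependent_iff'] at hEind ⊢
  intro s c hc i0 hi0
  set v0 : C := θC ⟨0, hD0⟩ with hv0
  have hv0ne : v0 ≠ 0 := hθ.ne_zero _
  have hv0V : v0 ∈ V := Submodule.subset_span ⟨_, rfl⟩
  have hex : ∀ i, ∃ e : Fin D → E, ∑ m, e m • θC m = (c i : C) * v0 := fun i =>
    (Submodule.mem_span_range_iff_exists_fun E).mp (hFV (c i) (c i).2 v0 hv0V)
  choose e he using hex
  have hinner : ∀ m, ∑ i ∈ s, e i m • χ (ofAdd (g i)) = 0 := by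
    have hmem : ∀ m, ∑ i ∈ s, e i m • χ (ofAdd (g i)) ∈ Ω' := by
      intro m
      refine sum_mem (fun i _ => ?_)
      rw [Algebra.smul_def]
      refine mul_mem (hEle _ (e i m).2) ?_
      exact IntermediateField.algebraMap_mem Ω' (⟨χ (ofAdd (g i)), subset_adjoin K _ ⟨g i, rfl⟩⟩ : Ω)
    rw [Fintype.linearIndependent_iff] at hθ
    have h1 := hθ (fun m => ⟨_, hmem m⟩) (by
      have h2 : ∀ m, (⟨_, hmem m⟩ : Ω') • θC m = ∑ i ∈ s, χ (ofAdd (g i)) * (e i m • θC m) := by
        intro m
        rw [Algebra.smul_def]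
        show (∑ i ∈ s, e i m • χ (ofAdd (g i))) * θC m = _
        rw [Finset.sum_mul]
        refine Finset.sum_congr rfl (fun i _ => ?_)
        rw [smul_mul_assoc, mul_smul_comm]
      rw [Finset.sum_congr rfl (fun m _ => h2 m), Finset.sum_comm]
      have h3 : ∑ i ∈ s, ∑ m, χ (ofAdd (g i)) * (e i m • θC m)
          = (∑ i ∈ s, c i • χ (ofAdd (g i))) * v0 := by
        rw [Finset.sum_mul]
        refine Finset.sum_congr rfl (fun i _ => ?_)
        rw [← Finset.mul_sum, he i, Algebra.smul_def]
        show _ = (c i : C) * _ * _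
        ring
      rw [h3, hc, zero_mul])
    intro m
    exact congrArg Subtype.val (h1 m)
  have hzero : ∀ m, e i0 m = 0 := fun m => hEind s (fun i => e i m) (hinner m) i0 hi0
  have h1 := he i0
  rw [Finset.sum_eq_zero (fun m _ => by rw [hzero m, zero_smul])] at h1
  have h2 : (c i0 : C) = 0 := by
    rcases mul_eq_zero.mp h1.symm with h | h
    · exact h
    · exact absurd h hv0ne
  exact Subtype.ext h2

theorem lw_over_iff (S : Finset C) {χ : Multiplicative G →* C}
    (hχ : LinearIndependent K (fun g : G => χ (ofAdd g))) :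
    ∃ T : Finset G, ∀ {ι : Type} (g : ι → G),
      LinearIndependent (adjoin K ((S : Set C) ∪
        (fun g : G => χ (ofAdd g)) '' (AddSubgroup.closure (T : Set G) : Set G)))
        (fun i => χ (ofAdd (g i))) ↔
      (∀ i j, i ≠ j → g i - g j ∉ AddSubgroup.closure (T : Set G)) := by
  classical
  obtain ⟨T, hT⟩ := lw_over S hχ
  refine ⟨T, fun {ι} g => ⟨?_, hT g⟩⟩
  intro hli i j hij hmem
  rw [linearIndependent_iff'] at hli
  set L := adjoin K ((S : Set C) ∪
        (fun g : G => χ (ofAdd g)) '' (AddSubgroup.closure (T : Set G) : Set G)) with hL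
  set z : L := ⟨χ (ofAdd (g i - g j)), subset_adjoin K _ (Or.inr ⟨_, hmem, rfl⟩)⟩ with hz
  have h1 := hli {i, j} (fun k => if k = i then 1 else - z) (by
    rw [Finset.sum_pair hij, if_pos rfl, if_neg (Ne.symm hij), one_smul, Algebra.smul_def]
    show χ (ofAdd (g i)) + (- χ (ofAdd (g i - g j))) * χ (ofAdd (g j)) = 0
    rw [neg_mul, ← map_mul, ← ofAdd_add, sub_add_cancel, add_neg_cancel]) i (by simp)
  simp at h1

end abs

end Pool.Agent.TH358.PE
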