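import Mathlib
import Pool.Agent.TH358.PE.LW3
import Pool.Agent.TH358.PE.Cx

set_option autoImplicit false

namespace Pool.Agent.TH358.PE

open Multiplicative IntermediateField

/-- The exponential function on the algebraic numbers. -/
noncomputable def chiQ : Multiplicative QB →* ℂ where
  toFun g := Complex.exp (g.toAdd : ℂ)
  map_one' := by simp
  map_mul' a b := by simp [Complex.exp_add]

theorem chiQ_linInd : LinearIndependent QB (fun g : QB => chiQ (ofAdd g)) := by
  have h : LinearIndependent QB (fun g : QB => Complex.exp (g : ℂ)) := by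
    rw [linearIndependent_iff']
    intro s c hc g hg
    have h1 := Pool.Agent.H340R2.LW.lindemann_weierstrass s (fun g : QB => (g : ℂ))
      (fun g => ((c g : QB) : ℂ)) (fun g _ => mem_QB.mp g.2) (fun g _ => mem_QB.mp (c g).2)
      (fun a _ b _ h => Subtype.ext h) (by
        rw [← hc]
        refine Finset.sum_congr rfl (fun g _ => ?_)
        rfl) g hg
    exact Subtype.ext h1
  exact h

theorem lw_fields (S : Finset ℂ) :
    ∃ Γ : AddSubgroup ℂ, Γ.FG ∧ (∀ γ ∈ Γ, IsAlgebraic ℚ γ) ∧
      ∀ L : Subfield ℂ,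
        L = Subfield.closure ({z : ℂ | IsAlgebraic ℚ z} ∪ (↑S ∪ Complex.exp '' (Γ : Set ℂ))) →
        ∀ (n : ℕ) (β : Fin n → ℂ), (∀ i, IsAlgebraic ℚ (β i)) →
          (LinearIndependent L (fun i => Complex.exp (β i)) ↔
            ∀ i j, i ≠ j → β i - β j ∉ Γ) := by
  classical
  obtain ⟨T, hT⟩ := lw_over_iff S chiQ_linInd
  set ϕ : QB →+ ℂ := (algebraMap QB ℂ).toAddMonoidHom with hϕ
  set M : AddSubgroup QB := AddSubgroup.closure (T : Set QB) with hM
  have hmem : ∀ z : QB, (z : ℂ) ∈ M.map ϕ ↔ z ∈ M := by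
    intro z
    constructor
    · rintro ⟨w, hw, hwz⟩
      have h1 : w = z := Subtype.ext hwz
      rw [← h1]; exact hw
    · intro hz
      exact ⟨z, hz, rfl⟩
  refine ⟨M.map ϕ, ?_, ?_, ?_⟩
  · refine ⟨T.image ϕ, ?_⟩
    rw [Finset.coe_image, hM, AddMonoidHom.map_closure]
  · rintro _ ⟨z, -, rfl⟩
    exact mem_QB.mp z.2
  · intro L hL n β hβ
    have himg : Complex.exp '' ((M.map ϕ : AddSubgroup ℂ) : Set ℂ)
        = (fun g : QB => chiQ (ofAdd g)) '' (M : Set QB) := by
      rw [AddSubgroup.coe_map, Set.image_image]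
      rfl
    rw [himg, ← adjoin_toSubfield] at hL
    subst hL
    have h1 := hT (ι := Fin n) (fun i => (⟨β i, mem_QB.mpr (hβ i)⟩ : QB))
    refine Iff.trans ?_ (h1.trans ?_)
    · exact Iff.rfl
    · refine forall_congr' (fun i => forall_congr' (fun j => imp_congr_right (fun _ => ?_)))
      rw [← hmem]
      exact Iff.rfl

end Pool.Agent.TH358.PE
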