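import Mathlib
import Pool.Agent.TH358.PE.Key
import Pool.Agent.TH358.PE.Cx

set_option autoImplicit false

namespace Pool.Agent.TH358.PE

open Multiplicative IntermediateField

/-- The relative algebraic closure of `F` in `ℂ`. -/
noncomputable abbrev clo (F : IntermediateField QB ℂ) : IntermediateField QB ℂ :=
  (algebraicClosure F ℂ).restrictScalars QB

theorem mem_clo {F : IntermediateField QB ℂ} {z : ℂ} : z ∈ clo F ↔ IsAlgebraic F z := by
  rw [mem_restrictScalars, mem_algebraicClosure_iff]

theorem trdeg_clo (S : Finset ℂ) :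
    Algebra.trdeg QB (clo (adjoin QB (S : Set ℂ))) ≤ (S.card : Cardinal) := by
  set F := adjoin QB (S : Set ℂ) with hF
  have h1 : Algebra.trdeg QB F + Algebra.trdeg F (algebraicClosure F ℂ)
      = Algebra.trdeg QB (algebraicClosure F ℂ) := trdeg_add_eq QB F
  have h2 : Algebra.trdeg F (algebraicClosure F ℂ) = 0 := trdeg_eq_zero
  rw [h2, add_zero] at h1
  have h3 : Algebra.trdeg QB (clo F) = Algebra.trdeg QB (algebraicClosure F ℂ) := rfl
  rw [h3, ← h1]
  exact trdeg_le S

theorem gen_of_mem {K F : Type*} [Field K] [Field F] [Algebra K F] (t : Set F)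
    (x : adjoin K t) : ∃ P Q : MvPolynomial t K,
      x = MvPolynomial.aeval (fun i : t => (⟨i, subset_adjoin K t i.2⟩ : adjoin K t)) P /
        MvPolynomial.aeval (fun i : t => (⟨i, subset_adjoin K t i.2⟩ : adjoin K t)) Q := by
  obtain ⟨P, Q, h⟩ := (mem_adjoin_iff K (S := t) (x : F)).mp x.2
  refine ⟨P, Q, ?_⟩
  apply (adjoin K t).val.injective
  have h1 : ∀ R : MvPolynomial t K, (adjoin K t).val
      (MvPolynomial.aeval (fun i : t => (⟨i, subset_adjoin K t i.2⟩ : adjoin K t)) R)
      = MvPolynomial.aeval (Subtype.val : t → F) R := by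
    intro R
    have h2 := MvPolynomial.comp_aeval
      (fun i : t => (⟨i, subset_adjoin K t i.2⟩ : adjoin K t)) (adjoin K t).val
    have h3 := congrArg (fun f => f R) h2
    exact h3
  have h4 : (adjoin K t).val x = (adjoin K t).val
      (MvPolynomial.aeval (fun i : t => (⟨i, subset_adjoin K t i.2⟩ : adjoin K t)) P /
        MvPolynomial.aeval (fun i : t => (⟨i, subset_adjoin K t i.2⟩ : adjoin K t)) Q) := by
    rw [map_div₀, h1, h1]
    exact h
  exact h4

theorem main2 (S : Finset ℂ) :
    ∃ (r : ℕ) (γ : Fin r → ℂ), r ≤ S.card ∧ (∀ i, IsAlgebraic ℚ (γ i)) ∧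
      (∀ i, IsAlgebraic (adjoin QB (S : Set ℂ)) (Complex.exp (γ i))) ∧
      AlgebraicIndependent QB (fun i => Complex.exp (γ i)) ∧
      ∀ α : ℂ, IsAlgebraic ℚ α → ∀ P : Polynomial (adjoin QB (S : Set ℂ)), P ≠ 0 →
        Polynomial.aeval (Complex.exp α) P = 0 →
        ∃ d : ℕ, 1 ≤ d ∧ d ≤ P.natDegree ∧ ∃ n : Fin r → ℤ, (d : ℂ) * α = ∑ i, n i * γ i := by
  classical
  set F := adjoin QB (S : Set ℂ) with hF
  obtain ⟨s, hs, hmax⟩ := exists_maximal_linearIndepOn ℤ (id : grp (clo F) → grp (clo F))
  have hy := algInd (chi_linInd (clo F)) hs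
  have hcard : Cardinal.mk s ≤ (S.card : Cardinal) := by
    have h1 := hy.lift_cardinalMk_le_trdeg
    have h2 := trdeg_clo S
    rw [← hF] at h2
    simp only [Cardinal.lift_id] at h1
    exact h1.trans h2
  have : Finite s := by
    rw [← Cardinal.mk_lt_aleph0_iff]
    exact hcard.trans_lt (Cardinal.natCast_lt_aleph0)
  have := Fintype.ofFinite s
  set a : s → ℂ := fun i => ((i : grp (clo F)) : ℂ) with ha
  have hyC : AlgebraicIndependent QB (fun i : s => Complex.exp (a i)) :=
    hy.map' (f := (clo F).val) (clo F).val.injective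
  set F1 := adjoin QB ((S : Set ℂ) ∪ Set.range (fun i : s => Complex.exp (a i))) with hF1
  have hle : F ≤ F1 := adjoin.mono _ _ _ Set.subset_union_left
  have hyF1 : ∀ i, Complex.exp (a i) ∈ F1 := fun i =>
    subset_adjoin _ _ (Or.inr ⟨i, rfl⟩)
  have : Algebra.EssFiniteType QB F1 := IntermediateField.essFiniteType_iff.mpr
    (fg_adjoin_of_finite (S.finite_toSet.union (Set.finite_range _)))
  set y : s → F1 := fun i => ⟨Complex.exp (a i), hyF1 i⟩ with hydef
  have hy1 : AlgebraicIndependent QB y := by
    rw [← AlgHom.algebraicIndependent_iff F1.val F1.val.injective]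
    exact hyC
  obtain ⟨t, hst, ht⟩ := exists_isTranscendenceBasis_superset (R := QB)
    (s := Set.range y) hy1.coe_range
  set E := adjoin QB t with hE
  have : Algebra.IsAlgebraic E F1 := by
    have h := ht.isAlgebraic_field
    rwa [Subtype.range_coe] at h
  have : Algebra.EssFiniteType E F1 := .of_comp QB _ _
  have : Module.Finite E F1 := Algebra.finite_of_essFiniteType_of_isAlgebraic
  set D := Module.finrank E F1 with hDdef
  have hD : 0 < D := Module.finrank_pos
  have hDC : (D : ℂ) ≠ 0 := by exact_mod_cast hD.ne'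
  set z : t → E := fun i => ⟨i, subset_adjoin QB t i.2⟩ with hzdef
  have hz : AlgebraicIndependent QB z := by
    rw [← AlgHom.algebraicIndependent_iff E.val E.val.injective]
    exact ht.1
  have hgen := gen_of_mem (K := QB) t
  set emb : s → t := fun i => ⟨y i, hst ⟨i, rfl⟩⟩ with hemb
  have hembinj : Function.Injective emb := by
    intro i j hij
    have h1 : y i = y j := congrArg Subtype.val hij
    exact hy1.injective h1
  set e := (Fintype.equivFin s).symm with he
  -- the new generators
  set γ : Fin (Fintype.card s) → ℂ := fun j => a (e j) / D with hγ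
  have halgγ : ∀ j, IsAlgebraic ℚ (γ j) := by
    intro j
    have h1 : IsAlgebraic ℚ (a (e j)) := (e j).1.2.1
    have h2 : IsAlgebraic ℚ ((D : ℂ)⁻¹) := (isAlgebraic_natCast (R := ℚ) D).inv
    have h3 := h1.mul h2
    rwa [← div_eq_mul_inv] at h3
  have hpow : ∀ j, Complex.exp (γ j) ^ D = Complex.exp (a (e j)) := by
    intro j
    rw [← Complex.exp_nat_mul]
    congr 1
    simp only [hγ]
    field_simp
  have halgF : ∀ j, IsAlgebraic F (Complex.exp (γ j)) := by
    intro j
    refine IsAlgebraic.of_pow hD ?_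
    rw [hpow]
    exact mem_clo.mp (e j).1.2.2
  refine ⟨Fintype.card s, γ, ?_, halgγ, halgF, ?_, ?_⟩
  · rw [Cardinal.mk_fintype] at hcard
    exact_mod_cast hcard
  · -- algebraic independence
    set g : Fin (Fintype.card s) → grp (clo F) := fun j => ⟨γ j, halgγ j, mem_clo.mpr (halgF j)⟩
      with hg
    have hgl : LinearIndependent ℤ g := by
      rw [Fintype.linearIndependent_iff]
      intro n hn
      have h1 : ∑ j, n j • (e j).1 = 0 := by
        have h2 : D • ∑ j, n j • g j = 0 := by rw [hn, smul_zero]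
        rw [Finset.smul_sum] at h2
        rw [← h2]
        refine Finset.sum_congr rfl (fun j _ => ?_)
        rw [smul_comm]
        congr 1
        apply Subtype.ext
        show a (e j) = ((D • g j : grp (clo F)) : ℂ)
        rw [AddSubgroup.coe_nsmul, nsmul_eq_mul]
        simp only [hg, hγ]
        field_simp
      have h3 : ∑ i : s, n (e.symm i) • (i : grp (clo F)) = 0 := by
        rw [← h1, ← Equiv.sum_comp e]
        simp
      have h4 : LinearIndependent ℤ (fun i : s => (i : grp (clo F))) := hs
      rw [Fintype.linearIndependent_iff] at h4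
      intro j
      have h5 := h4 _ h3 (e j)
      simpa using h5
    have h1 := algInd (chi_linInd (clo F)) hgl
    exact h1.map' (f := (clo F).val) (clo F).val.injective
  · intro α hα P hP0 hP
    set β := Complex.exp α with hβ
    have hβF : IsAlgebraic F β := ⟨P, hP0, hP⟩
    -- the relation between `α` and the `a i`
    have hrel : ∃ m : ℕ, m ≠ 0 ∧ ∃ n : s → ℤ, (m : ℂ) * α = ∑ i, n i * a i := by
      set g : grp (clo F) := ⟨α, hα, mem_clo.mpr hβF⟩ with hg
      have hspan : Submodule.span ℤ (Set.range (Subtype.val : s → grp (clo F)))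
          = Submodule.span ℤ s := by
        rw [Subtype.range_coe]
      have hm : ∃ m : ℕ, m ≠ 0 ∧ m • g ∈ Submodule.span ℤ s := by
        by_cases hgs : g ∈ s
        · exact ⟨1, one_ne_zero, by rw [one_smul]; exact Submodule.subset_span hgs⟩
        · obtain ⟨c, hc0, hc⟩ := hmax g hgs
          rw [Set.image_id] at hc
          refine ⟨c.natAbs, Int.natAbs_ne_zero.mpr hc0, ?_⟩
          rcases Int.natAbs_eq c with h | h
          · have h5 : c • g = c.natAbs • g := by
              conv_lhs => rw [h]
              rw [natCast_zsmul]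
            rw [← h5]; exact hc
          · have h5 : -(c • g) = c.natAbs • g := by
              conv_lhs => rw [h]
              rw [neg_smul, neg_neg, natCast_zsmul]
            rw [← h5]; exact neg_mem hc
      obtain ⟨m, hm0, hm⟩ := hm
      rw [← hspan, Submodule.mem_span_range_iff_exists_fun] at hm
      obtain ⟨n, hn⟩ := hm
      refine ⟨m, hm0, n, ?_⟩
      have h1 := congrArg (grp (clo F)).subtype hn
      rw [map_sum, map_nsmul, nsmul_eq_mul] at h1
      rw [show α = (grp (clo F)).subtype g from rfl, ← h1]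
      refine Finset.sum_congr rfl (fun i _ => ?_)
      rw [map_zsmul, zsmul_eq_mul]
      rfl
    obtain ⟨m, hm0, n, hn⟩ := hrel
    -- the field generated by `β`
    set P1 : Polynomial F1 := P.map (inclusion hle : F →+* F1) with hP1
    have hP10 : P1 ≠ 0 := by
      rw [hP1, Ne, Polynomial.map_eq_zero]
      exact hP0
    have hP1β : Polynomial.aeval β P1 = 0 := by
      rw [hP1, Polynomial.aeval_def, Polynomial.eval₂_map]
      exact hP
    have hβ1 : IsAlgebraic F1 β := ⟨P1, hP10, hP1β⟩
    have hβi : IsIntegral F1 β := hβ1.isIntegral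
    have hfd : FiniteDimensional F1 F1⟮β⟯ := adjoin.finiteDimensional hβi
    set d := Module.finrank F1 F1⟮β⟯ with hd
    have hd1 : 1 ≤ d := Module.finrank_pos
    have hd2 : d ≤ P.natDegree := by
      rw [hd, adjoin.finrank hβi]
      refine (Polynomial.natDegree_le_natDegree
        (minpoly.degree_le_of_ne_zero F1 β hP10 hP1β)).trans ?_
      rw [hP1, Polynomial.natDegree_map]
    have : Module.Finite E F1⟮β⟯ := Module.Finite.trans F1 _
    have hfr : Module.finrank E F1⟮β⟯ = D * d := (Module.finrank_mul_finrank E F1 F1⟮β⟯).symm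
    have hkey : ∀ i, (m : ℤ) ∣ (D * d : ℕ) * n i := by
      intro i
      rw [← hfr]
      refine key (E := E) (L := F1⟮β⟯) z hz hgen emb hembinj
        (b := ⟨β, mem_adjoin_simple_self F1 β⟩) ?_ ?_ i
      · intro h
        exact Complex.exp_ne_zero α (congrArg Subtype.val h)
      · apply (algebraMap F1⟮β⟯ ℂ).injective
        simp only [map_mul, map_pow, map_prod]
        have h1 : ∀ i, (algebraMap F1⟮β⟯ ℂ) (algebraMap E F1⟮β⟯ (z (emb i)))
            = Complex.exp (a i) := fun i => rfl
        have h2 : (algebraMap F1⟮β⟯ ℂ) ⟨β, mem_adjoin_simple_self F1 β⟩ = β := rfl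
        simp only [h1, h2]
        have h3 : ∀ k : s → ℕ, ∏ i, Complex.exp (a i) ^ k i
            = Complex.exp (∑ i, (k i : ℂ) * a i) := by
          intro k
          rw [Complex.exp_sum]
          refine Finset.prod_congr rfl (fun i _ => ?_)
          rw [Complex.exp_nat_mul]
        rw [h3, h3, hβ, ← Complex.exp_nat_mul, ← Complex.exp_add, hn, ← Finset.sum_add_distrib]
        congr 1
        refine Finset.sum_congr rfl (fun i _ => ?_)
        have h4 : ((n i).toNat : ℤ) = n i + ((- n i).toNat : ℤ) := by omega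
        have h5 : ((n i).toNat : ℂ) = (n i : ℂ) + ((- n i).toNat : ℂ) := by exact_mod_cast h4
        rw [h5]
        ring
    choose c hc using hkey
    refine ⟨d, hd1, hd2, fun j => c (e j), ?_⟩
    have hmC : (m : ℂ) ≠ 0 := by exact_mod_cast hm0
    have h1 : ((D : ℂ) * d) * α = ∑ i, (c i : ℂ) * a i := by
      apply mul_left_cancel₀ hmC
      calc (m : ℂ) * ((D : ℂ) * d * α) = ((D : ℂ) * d) * (m * α) := by ring
        _ = ∑ i, ((D : ℂ) * d) * (n i * a i) := by rw [hn, Finset.mul_sum]
        _ = ∑ i, (m : ℂ) * (c i * a i) := by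
            refine Finset.sum_congr rfl (fun i _ => ?_)
            have h2 : ((D * d : ℕ) : ℂ) * (n i : ℂ) = (m : ℂ) * (c i : ℂ) := by
              exact_mod_cast hc i
            push_cast at h2
            rw [← mul_assoc, h2, mul_assoc]
        _ = (m : ℂ) * ∑ i, (c i : ℂ) * a i := by rw [Finset.mul_sum]
    rw [← Equiv.sum_comp e] at h1
    apply mul_left_cancel₀ hDC
    rw [← mul_assoc, h1, Finset.mul_sum]
    refine Finset.sum_congr rfl (fun j _ => ?_)
    simp only [hγ]
    field_simp

end Pool.Agent.TH358.PE
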